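import Mathlib
import Pool.Agent.Q92.Congl

/-!
# MP_aa1901_an: a non-conglomerated free filter which is not generated by a statistical measure
-/

namespace Pool.Agent.Results.MP_aa1901_an.NotConglomerated

open Q92.Gaifman

/-- **MP_aa1901_an, Q1 (disproof, in ZFC).** There is a free filter on `ℕ` which is not
conglomerated and is not generated by any statistical measure. -/
theorem result : ∃ F : Filter ℕ, IsFree F ∧ ¬ Conglomerated F ∧
    ∀ μ : Set ℕ → ℝ, IsStatMeasure μ → ¬ GeneratedBy F μ :=
  ⟨FG, FG_free, fun h => not_poor_of_conglomerated h FG_poor, FG_not_generated⟩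

end Pool.Agent.Results.MP_aa1901_an.NotConglomerated
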